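import Pool.Agent.Lib.MP_6bc78b_nt.MS.P3.Iface

/-! Project MS, Part III, module KC: continuity of the normalised integrand. -/

set_option autoImplicit false

open Complex Filter Topology ArithmeticFunction

namespace Pool.Agent.Lib.MP_6bc78b_nt.MS.P3.H74

private lemma one_sub_ne (p : ℕ) (hp : 2 ≤ p) (s : ℂ) (hs : 0 < s.re) :
    (1 : ℂ) - (p : ℂ) ^ (-s) ≠ 0 := by
  intro h
  have h1 : (p : ℂ) ^ (-s) = 1 := by
    have := sub_eq_zero.mp h
    exact this.symm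
  have h2 : ‖(p : ℂ) ^ (-s)‖ = (p : ℝ) ^ (-s).re :=
    Complex.norm_natCast_cpow_of_pos (by omega) _
  have h3 : (p : ℝ) ^ (-s).re < 1 := by
    apply Real.rpow_lt_one_of_one_lt_of_neg
    · exact_mod_cast (by omega : 1 < p)
    · simpa using hs
  rw [h1] at h2
  simp only [norm_one] at h2
  linarith

section
variable {X : Type*} [TopologicalSpace X] {S : Set X}

private lemma cont_fp (p : ℕ) (hp : 2 ≤ p) (s w : X → ℂ) (a : X → Fin 3 → ℂ)
    (hs : ContinuousOn s S) (hw : ContinuousOn w S) (ha : ∀ i, ContinuousOn (fun x => a x i) S)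
    (h1 : ∀ x ∈ S, 0 < (s x).re) (h2 : ∀ x ∈ S, 0 < (s x + w x).re) :
    ContinuousOn (fun x => fp p (s x) (a x) (w x)) S := by
  have hp0 : (p : ℂ) ≠ 0 := by
    exact_mod_cast (by omega : p ≠ 0)
  have e1 : ContinuousOn (fun x => (p : ℂ) ^ (-(s x))) S := hs.neg.const_cpow (Or.inl hp0)
  have e2 : ContinuousOn (fun x => (p : ℂ) ^ (-(s x) - w x)) S :=
    (hs.neg.sub hw).const_cpow (Or.inl hp0)
  have e3 : ∀ i, ContinuousOn (fun x => (p : ℂ) ^ (-(s x) - a x i)) S := fun i =>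
    (hs.neg.sub (ha i)).const_cpow (Or.inl hp0)
  have e4 : ContinuousOn (fun x => ∏ i, (1 - (p : ℂ) ^ (-(s x) - a x i))) S :=
    continuousOn_finsetProd _ (fun i _ => continuousOn_const.sub (e3 i))
  have e5 : ContinuousOn (fun x => (1 - (p : ℂ) ^ (-(s x))) * (1 - (p : ℂ) ^ (-(s x) - w x))) S :=
    (continuousOn_const.sub e1).mul (continuousOn_const.sub e2)
  have e6 : ContinuousOn (fun x => hL p (s x) (a x) (w x)) S := by
    unfold hL
    refine e4.div e5 ?_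
    intro x hx
    refine mul_ne_zero (one_sub_ne p hp _ (h1 x hx)) ?_
    have h := one_sub_ne p hp (s x + w x) (h2 x hx)
    have e : -(s x + w x) = -(s x) - w x := by ring
    rwa [e] at h
  unfold fp
  exact continuousOn_const.sub (continuousOn_const.mul e6)

private lemma cont_fm (m : ℕ) (s w : X → ℂ) (a : X → Fin 3 → ℂ)
    (hs : ContinuousOn s S) (hw : ContinuousOn w S) (ha : ∀ i, ContinuousOn (fun x => a x i) S)
    (h1 : ∀ x ∈ S, 0 < (s x).re) (h2 : ∀ x ∈ S, 0 < (s x + w x).re) :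
    ContinuousOn (fun x => fm m (s x) (a x) (w x)) S := by
  unfold fm
  refine continuousOn_finsetProd _ (fun p hp => ?_)
  exact cont_fp p (Nat.prime_of_mem_primeFactors hp).two_le s w a hs hw ha h1 h2

private lemma cont_NN (th c1 c2 T : ℝ) (s w : X → ℂ) (a : X → Fin 3 → ℂ)
    (hs : ContinuousOn s S) (hw : ContinuousOn w S) (ha : ∀ i, ContinuousOn (fun x => a x i) S)
    (h1 : ∀ x ∈ S, 0 < (s x).re) (h2 : ∀ x ∈ S, 0 < (s x + w x).re) :
    ContinuousOn (fun x => NN th c1 c2 T (s x) (a x) (w x)) S := by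
  unfold NN
  refine continuousOn_finsetSum _ (fun m hm => ?_)
  have hm1 : 1 ≤ m := (Finset.mem_Icc.mp hm).1
  have hm0 : (m : ℂ) ≠ 0 := by
    exact_mod_cast (by omega : m ≠ 0)
  have e1 : ContinuousOn (fun x => (m : ℂ) ^ (s x - 1)) S :=
    (hs.sub continuousOn_const).const_cpow (Or.inl hm0)
  exact (continuousOn_const.mul e1).mul (cont_fm m s w a hs hw ha h1 h2)

private lemma cont_zeta (s : X → ℂ) (hs : ContinuousOn s S) (h1 : ∀ x ∈ S, s x ≠ 1) :
    ContinuousOn (fun x => riemannZeta (s x)) S := by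
  intro x hx
  have h := (differentiableAt_riemannZeta (h1 x hx)).continuousAt
  exact ContinuousAt.comp_continuousWithinAt (f := s) (g := riemannZeta) h (hs x hx)

end

private lemma sqB_ge {Z : ℂ} (hZ : Z ∈ sqB) : 1 / 2 ≤ ‖Z‖ := by
  obtain ⟨-, -, h | h⟩ := hZ
  · rw [← h]
    exact Complex.abs_re_le_norm Z
  · rw [← h]
    exact Complex.abs_im_le_norm Z

/-- Module KC. -/
theorem kc (hRH : RiemannHypothesis) (h1 : ZrStatement) (h2 : GmStatement) : KcStatement := by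
  intro th c1 c2 hth hth2 j
  refine ⟨Real.exp 4 + 3, fun T hT => ?_⟩
  have hT3 : 3 ≤ T := by
    have := Real.exp_pos 4
    linarith
  have hL : 4 ≤ Real.log T := by
    rw [← Real.log_exp 4]
    exact Real.log_le_log (Real.exp_pos _) (by linarith)
  obtain ⟨L, hLe⟩ : ∃ L : ℝ, L = Real.log T := ⟨_, rfl⟩
  have hL4 : 4 ≤ L := by rw [hLe]; exact hL
  have hLpos : 0 < L := by linarith
  have hL0 : (L : ℂ) ≠ 0 := by exact_mod_cast hLpos.ne'
  obtain ⟨S, hS⟩ : ∃ S : Set (ℂ × (Fin 3 → ℂ) × ℂ),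
    S = (sqB ×ˢ pd ×ˢ {W : ℂ | W.re = 2}) := ⟨_, rfl⟩
  -- the three maps
  have cZ : ContinuousOn (fun p : ℂ × (Fin 3 → ℂ) × ℂ => (1 : ℂ) + p.1 / (L : ℂ)) S := by
    apply Continuous.continuousOn
    fun_prop
  have cW : ContinuousOn (fun p : ℂ × (Fin 3 → ℂ) × ℂ => p.2.2 / (L : ℂ)) S := by
    apply Continuous.continuousOn
    fun_prop
  have cA : ∀ i : Fin 3, ContinuousOn (fun p : ℂ × (Fin 3 → ℂ) × ℂ => p.2.1 i / (L : ℂ)) S := by
    intro i
    apply Continuous.continuousOn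
    fun_prop
  -- membership
  have mem : ∀ p ∈ S, p.1 ∈ sqB ∧ (∀ i, ‖p.2.1 i‖ ≤ 1 / 4) ∧ p.2.2.re = 2 := by
    intro p hp
    rw [hS] at hp
    exact ⟨hp.1, hp.2.1, hp.2.2⟩
  have hZre : ∀ p ∈ S, 7 / 8 ≤ ((1 : ℂ) + p.1 / (L : ℂ)).re := by
    intro p hp
    have h := (mem p hp).1.1
    have e : ((1 : ℂ) + p.1 / (L : ℂ)).re = 1 + p.1.re / L := by
      simp
    rw [e]
    have h3 : -(1 / 2) ≤ p.1.re := (abs_le.mp h).1
    have h4 : -(1 / 8) ≤ p.1.re / L := by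
      rw [le_div_iff₀ hLpos]
      nlinarith
    linarith
  have hWre : ∀ p ∈ S, 1 < ((1 : ℂ) + p.1 / (L : ℂ) + p.2.2 / (L : ℂ)).re := by
    intro p hp
    have h := (mem p hp).1.1
    have hw := (mem p hp).2.2
    have e : ((1 : ℂ) + p.1 / (L : ℂ) + p.2.2 / (L : ℂ)).re = 1 + (p.1.re + p.2.2.re) / L := by
      simp
      ring
    rw [e, hw]
    have h3 : -(1 / 2) ≤ p.1.re := (abs_le.mp h).1
    have h4 : 0 < (p.1.re + 2) / L := by
      apply div_pos _ hLpos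
      linarith
    linarith
  have hZ1 : ∀ p ∈ S, (1 : ℂ) + p.1 / (L : ℂ) ≠ 1 := by
    intro p hp h
    have hz : p.1 / (L : ℂ) = 0 := by
      linear_combination h
    rcases div_eq_zero_iff.mp hz with h | h
    · have := sqB_ge (mem p hp).1
      rw [h, norm_zero] at this
      linarith
    · exact hL0 h
  have hW1 : ∀ p ∈ S, (1 : ℂ) + p.1 / (L : ℂ) + p.2.2 / (L : ℂ) ≠ 1 := by
    intro p hp h
    have := hWre p hp
    rw [h] at this
    simp at this
  have hA1 : ∀ i : Fin 3, ∀ p ∈ S, (1 : ℂ) + p.1 / (L : ℂ) + p.2.1 i / (L : ℂ) ≠ 1 := by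
    intro i p hp h
    have hz : (p.1 + p.2.1 i) / (L : ℂ) = 0 := by
      have e : (p.1 + p.2.1 i) / (L : ℂ) = p.1 / (L : ℂ) + p.2.1 i / (L : ℂ) := add_div _ _ _
      rw [e]
      linear_combination h
    rcases div_eq_zero_iff.mp hz with h | h
    · have h5 := sqB_ge (mem p hp).1
      have h6 := (mem p hp).2.1 i
      have h7 : p.1 = -(p.2.1 i) := by linear_combination h
      rw [h7, norm_neg] at h5
      linarith
    · exact hL0 h
  obtain ⟨hz1, hz2, hz3, hz4, hz5, hz6⟩ := h1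
  have hne : ∀ s : ℂ, s ≠ 1 → 1 / 2 < s.re → riemannZeta s ≠ 0 := by
    intro s hs hs2
    rw [hz3 s hs]
    exact div_ne_zero (hz5 hRH s hs2) (sub_ne_zero.mpr hs)
  -- the factors
  have f1 : ContinuousOn (fun p : ℂ × (Fin 3 → ℂ) × ℂ => Gm j T ((1 : ℂ) + p.1 / (L : ℂ))) S := by
    intro p hp
    have hd := (h2.2.1 j T ((1 : ℂ) + p.1 / (L : ℂ)) hT3
      (by have := hZre p hp; linarith)).continuousAt
    exact ContinuousAt.comp_continuousWithinAt
      (f := fun p : ℂ × (Fin 3 → ℂ) × ℂ => (1 : ℂ) + p.1 / (L : ℂ)) (g := Gm j T) hd (cZ p hp)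
  have f2 : ContinuousOn (fun p : ℂ × (Fin 3 → ℂ) × ℂ =>
      Hz ((1 : ℂ) + p.1 / (L : ℂ)) (fun i => p.2.1 i / (L : ℂ)) (p.2.2 / (L : ℂ))) S := by
    unfold Hz
    have g1 : ContinuousOn (fun p : ℂ × (Fin 3 → ℂ) × ℂ =>
        ∏ i : Fin 3, riemannZeta ((1 : ℂ) + p.1 / (L : ℂ) + p.2.1 i / (L : ℂ))) S :=
      continuousOn_finsetProd _ (fun i _ => cont_zeta _ (cZ.add (cA i)) (hA1 i))
    have g2 : ContinuousOn (fun p : ℂ × (Fin 3 → ℂ) × ℂ =>
        riemannZeta ((1 : ℂ) + p.1 / (L : ℂ)) *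
          riemannZeta ((1 : ℂ) + p.1 / (L : ℂ) + p.2.2 / (L : ℂ))) S :=
      (cont_zeta _ cZ hZ1).mul (cont_zeta _ (cZ.add cW) hW1)
    refine g1.div g2 ?_
    intro p hp
    refine mul_ne_zero (hne _ (hZ1 p hp) ?_) (hne _ (hW1 p hp) ?_)
    · have := hZre p hp
      linarith
    · have := hWre p hp
      linarith
  have f3 : ContinuousOn (fun p : ℂ × (Fin 3 → ℂ) × ℂ =>
      NN th c1 c2 T ((1 : ℂ) + p.1 / (L : ℂ)) (fun i => p.2.1 i / (L : ℂ))
        (p.2.2 / (L : ℂ))) S := by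
    refine cont_NN th c1 c2 T _ _ _ cZ cW cA ?_ ?_
    · intro p hp
      have := hZre p hp
      linarith
    · intro p hp
      have := hWre p hp
      linarith
  have f4 := ((f1.mul f2).mul f3).div_const ((L : ℂ) * ((cG T : ℂ) * (L : ℂ) ^ j))
  rw [← hS]
  unfold KK sc
  rw [← hLe]
  exact f4

end Pool.Agent.Lib.MP_6bc78b_nt.MS.P3.H74
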